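import Pool.Agent.Helper98.DISC.GoalsE

/-!
# Project DISC, packet PFM: rational partial fraction expansions

Author: helper77.
-/

namespace Pool.Agent.Helper77.DISC

open Pool.Agent.Helper98.DISC

theorem pmono {K j k : ℕ} {f : ℂ → ℂ} (hjk : j ≤ k) (hf : PFr K j f) : PFr K k f := by
  obtain ⟨a, ha⟩ := hf
  refine ⟨fun m l => if l < j then a m l else 0, fun z hz => ?_⟩
  rw [ha z hz]
  refine Finset.sum_congr rfl fun m _ => ?_
  rw [← Finset.sum_subset (Finset.range_subset_range.mpr hjk)]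
  · refine Finset.sum_congr rfl fun l hl => ?_
    beta_reduce
    rw [if_pos (Finset.mem_range.mp hl)]
  · intro l _ hl
    beta_reduce
    rw [if_neg (fun h => hl (Finset.mem_range.mpr h))]
    simp

theorem padd' {K k : ℕ} {f g : ℂ → ℂ} (hf : PFr K k f) (hg : PFr K k g) :
    PFr K k (fun z => f z + g z) := by
  obtain ⟨a, ha⟩ := hf
  obtain ⟨b, hb⟩ := hg
  refine ⟨fun m l => a m l + b m l, fun z hz => ?_⟩
  beta_reduce
  rw [ha z hz, hb z hz, ← Finset.sum_add_distrib]
  refine Finset.sum_congr rfl fun m _ => ?_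
  rw [← Finset.sum_add_distrib]
  refine Finset.sum_congr rfl fun l _ => ?_
  push_cast
  ring

theorem psmul {K k : ℕ} (q : ℚ) {f : ℂ → ℂ} (hf : PFr K k f) :
    PFr K k (fun z => (q : ℂ) * f z) := by
  obtain ⟨a, ha⟩ := hf
  refine ⟨fun m l => q * a m l, fun z hz => ?_⟩
  beta_reduce
  rw [ha z hz, Finset.mul_sum]
  refine Finset.sum_congr rfl fun m _ => ?_
  rw [Finset.mul_sum]
  refine Finset.sum_congr rfl fun l _ => ?_
  push_cast
  ring

theorem pcongr {K k : ℕ} {f g : ℂ → ℂ} (h : ∀ z : ℂ, (K : ℝ) < ‖z‖ → g z = f z)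
    (hf : PFr K k f) : PFr K k g := by
  obtain ⟨a, ha⟩ := hf
  exact ⟨a, fun z hz => by rw [h z hz, ha z hz]⟩

theorem pzero (K k : ℕ) : PFr K k (fun _ => 0) :=
  ⟨fun _ _ => 0, fun z _ => by simp⟩

theorem psum {K k : ℕ} {ι : Type} (s : Finset ι) (f : ι → ℂ → ℂ) (h : ∀ i ∈ s, PFr K k (f i)) :
    PFr K k (fun z => ∑ i ∈ s, f i z) := by
  classical
  induction s using Finset.induction_on with
  | empty => simpa using pzero K k
  | insert i s hi ih =>
    have h1 := padd' (h i (Finset.mem_insert_self i s))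
      (ih fun j hj => h j (Finset.mem_insert_of_mem hj))
    refine pcongr (fun z _ => ?_) h1
    rw [Finset.sum_insert hi]

/-- the basic functions -/
theorem pbasic {K : ℕ} {m : ℤ} (hm : |m| ≤ K) (l : ℕ) :
    PFr K (l + 1) (fun z => 1 / (z - m) ^ (l + 1)) := by
  classical
  refine ⟨fun m' l' => if m' = m ∧ l' = l then 1 else 0, fun z hz => ?_⟩
  have hm' : m ∈ Finset.Icc (-(K : ℤ)) K := Finset.mem_Icc.mpr (abs_le.mp hm)
  rw [Finset.sum_eq_single m, Finset.sum_eq_single l]
  · simp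
  · intro l' _ hl'
    simp [hl']
  · intro h
    exact absurd (Finset.mem_range.mpr (Nat.lt_succ_self l)) h
  · intro m' _ hm''
    refine Finset.sum_eq_zero fun l' _ => ?_
    simp [hm'']
  · intro h
    exact absurd hm' h

theorem sub_ne {K : ℕ} {m : ℤ} (hm : |m| ≤ K) {z : ℂ} (hz : (K : ℝ) < ‖z‖) : z - m ≠ 0 := by
  intro h
  rw [sub_eq_zero] at h
  rw [h, Complex.norm_intCast] at hz
  have h1 : ((|m| : ℤ) : ℝ) ≤ K := by exact_mod_cast hm
  rw [Int.cast_abs] at h1
  linarith

/-- products of two basic functions -/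
theorem pprod {K : ℕ} {m m' : ℤ} (hm : |m| ≤ K) (hm' : |m'| ≤ K) : ∀ (n a b : ℕ), a + b = n → 0 < n →
    PFr K n (fun z => 1 / (z - m) ^ a * (1 / (z - m') ^ b)) := by
  intro n
  induction n with
  | zero => intro a b _ h; exact absurd h (lt_irrefl 0)
  | succ n ih =>
    intro a b hab _
    by_cases he : m = m'
    · subst he
      refine pcongr (fun z hz => ?_) (pbasic hm n)
      rw [div_mul_div_comm, one_mul, ← pow_add, hab]
    · rcases a with _ | a
      · rw [Nat.zero_add] at hab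
        subst hab
        refine pcongr (fun z hz => ?_) (pbasic hm' n)
        simp
      rcases b with _ | b
      · rw [Nat.add_zero] at hab
        rw [hab]
        refine pcongr (fun z hz => ?_) (pbasic hm n)
        simp
      have hn : 0 < n := by omega
      have h1 := ih (a + 1) b (by omega) hn
      have h2 := ih a (b + 1) (by omega) hn
      have h3 := psmul ((m - m' : ℚ)⁻¹) (padd' h1 (psmul (-1) h2))
      refine pcongr (fun z hz => ?_) (pmono (Nat.le_succ n) h3)
      have hz1 : z - m ≠ 0 := sub_ne hm hz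
      have hz2 : z - m' ≠ 0 := sub_ne hm' hz
      have hmm : (m : ℂ) - m' ≠ 0 := by
        rw [sub_ne_zero]
        exact_mod_cast he
      push_cast
      rw [pow_succ, pow_succ]
      field_simp
      ring

theorem pmul {K j k : ℕ} {f g : ℂ → ℂ} (hf : PFr K j f) (hg : PFr K k g) :
    PFr K (j + k) (fun z => f z * g z) := by
  obtain ⟨a, ha⟩ := hf
  obtain ⟨b, hb⟩ := hg
  have h1 : PFr K (j + k) (fun z => ∑ m ∈ Finset.Icc (-(K : ℤ)) K, ∑ l ∈ Finset.range j,
      ∑ m' ∈ Finset.Icc (-(K : ℤ)) K, ∑ l' ∈ Finset.range k,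
        ((a m l * b m' l' : ℚ) : ℂ) * (1 / (z - m) ^ (l + 1) * (1 / (z - m') ^ (l' + 1)))) := by
    refine psum _ _ fun m hm => psum _ _ fun l hl => psum _ _ fun m' hm' => psum _ _ fun l' hl' => ?_
    refine psmul _ ?_
    have h2 := Finset.mem_range.mp hl
    have h3 := Finset.mem_range.mp hl'
    exact pmono (by omega : l + 1 + (l' + 1) ≤ j + k)
      (pprod (abs_le.mpr (Finset.mem_Icc.mp hm)) (abs_le.mpr (Finset.mem_Icc.mp hm'))
        (l + 1 + (l' + 1)) (l + 1) (l' + 1) rfl (by omega))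
  refine pcongr (fun z hz => ?_) h1
  rw [ha z hz, hb z hz, Finset.sum_mul]
  refine Finset.sum_congr rfl fun m _ => ?_
  rw [Finset.sum_mul]
  refine Finset.sum_congr rfl fun l _ => ?_
  rw [Finset.mul_sum]
  refine Finset.sum_congr rfl fun m' _ => ?_
  rw [Finset.mul_sum]
  refine Finset.sum_congr rfl fun l' _ => ?_
  push_cast
  ring

/-- packet PFM -/
theorem pfm : S_PFM := by
  refine ⟨fun K j k f g hf hg => padd' (pmono (le_max_left _ _) hf) (pmono (le_max_right _ _) hg),
    fun K k q f hf => psmul q hf, fun K j k f g hf hg => pmul hf hg, fun K c hc => ?_,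
    fun K j k f hjk hf => pmono hjk hf⟩
  have h1 := pbasic (K := K) (m := -c) (by rwa [abs_neg]) 0
  refine pcongr (fun z hz => ?_) h1
  push_cast
  simp

end Pool.Agent.Helper77.DISC
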